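import Pool.Agent.Helper21.EM.Stmts

/-!
EM, row COO: coordinates of a block.
-/

set_option autoImplicit false

open Matrix MT

namespace EM

section

variable {K : Type} [Field K] {n : ℕ}

theorem coo_inv_mul (P : Matrix.GeneralLinearGroup (Fin n) K) :
    ((P⁻¹ : Matrix.GeneralLinearGroup (Fin n) K) : Matrix (Fin n) (Fin n) K) *
      (P : Matrix (Fin n) (Fin n) K) = 1 := by
  rw [← Units.val_mul, inv_mul_cancel, Units.val_one]

theorem coo_mul_inv (P : Matrix.GeneralLinearGroup (Fin n) K) :
    (P : Matrix (Fin n) (Fin n) K) *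
      ((P⁻¹ : Matrix.GeneralLinearGroup (Fin n) K) : Matrix (Fin n) (Fin n) K) = 1 := by
  rw [← Units.val_mul, mul_inv_cancel, Units.val_one]

end

theorem st_COO : ST_COO := by
  classical
  intro K _ _ n L P k r f hf
  have h1 : VV P f * UU P f = 1 := by
    ext i j
    have h2 : (VV P f * UU P f) i j
        = (((P⁻¹ : Matrix.GeneralLinearGroup (Fin n) K) : Matrix (Fin n) (Fin n) K) *
          (P : Matrix (Fin n) (Fin n) K)) (f i) (f j) := by
      simp only [Matrix.mul_apply, VV, UU, Matrix.submatrix_apply, id_eq]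
    rw [h2, coo_inv_mul, Matrix.one_apply, Matrix.one_apply]
    by_cases hij : i = j
    · rw [if_pos hij, if_pos (by rw [hij])]
    · rw [if_neg hij, if_neg (fun h => hij (hf.inj h))]
  have h3 : UU P f * VV P f = idm L P k := by
    ext i j
    have e1 : (UU P f * VV P f) i j = ∑ a : Fin r, (P : Matrix (Fin n) (Fin n) K) i (f a) *
        ((P⁻¹ : Matrix.GeneralLinearGroup (Fin n) K) : Matrix (Fin n) (Fin n) K) (f a) j := by
      simp only [Matrix.mul_apply, VV, UU, Matrix.submatrix_apply, id_eq]
    have e2 : idm L P k i j = ∑ x : Fin n, if Sam L P x P k then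
        (P : Matrix (Fin n) (Fin n) K) i x *
        ((P⁻¹ : Matrix.GeneralLinearGroup (Fin n) K) : Matrix (Fin n) (Fin n) K) x j else 0 := by
      unfold idm
      rw [Matrix.mul_apply]
      refine Finset.sum_congr rfl (fun x _ => ?_)
      rw [Matrix.mul_diagonal]
      by_cases hx : Sam L P x P k
      · rw [if_pos hx, if_pos hx, mul_one]
      · rw [if_neg hx, if_neg hx, mul_zero, zero_mul]
    rw [e1, e2, ← Finset.sum_filter]
    have e3 : (Finset.univ.filter fun x => Sam L P x P k) = Finset.univ.image f := by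
      ext x
      simp only [Finset.mem_filter, Finset.mem_univ, true_and, Finset.mem_image]
      exact (hf.rng x).symm
    rw [e3, Finset.sum_image (fun a _ b _ h => hf.inj h)]
  refine ⟨h1, h3, ?_, ?_, ?_⟩
  · rw [← h3, Matrix.mul_assoc, h1, Matrix.mul_one]
  · rw [← h3, ← Matrix.mul_assoc, h1, Matrix.one_mul]
  · rw [← h3, Matrix.trace_mul_comm, h1, Matrix.trace_one, Fintype.card_fin]

end EM
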