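import Pool.Agent.Helper31.EM.COO

/-!
EM, row IDM: the idempotents of a frame.
-/

set_option autoImplicit false

open Matrix MT

namespace EM

section

variable {K : Type} [Field K] {n : ℕ}

theorem cmt_one (L : Submodule K (Matrix (Fin n) (Fin n) K)) :
    (1 : Matrix (Fin n) (Fin n) K) ∈ Cmt L := fun A _ => by rw [Matrix.mul_one, Matrix.one_mul]

theorem cmt_mul {L : Submodule K (Matrix (Fin n) (Fin n) K)} {X Y : Matrix (Fin n) (Fin n) K}
    (hX : X ∈ Cmt L) (hY : Y ∈ Cmt L) : X * Y ∈ Cmt L := fun A hA => by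
  rw [← Matrix.mul_assoc, hX A hA, Matrix.mul_assoc, hY A hA, Matrix.mul_assoc]

theorem evl_conj (P : Matrix.GeneralLinearGroup (Fin n) K) (x : Fin n → K) (j : Fin n) :
    evl P ((P : Matrix (Fin n) (Fin n) K) * Matrix.diagonal x *
      ((P⁻¹ : Matrix.GeneralLinearGroup (Fin n) K) : Matrix (Fin n) (Fin n) K)) j = x j := by
  unfold evl
  have h : ((P⁻¹ : Matrix.GeneralLinearGroup (Fin n) K) : Matrix (Fin n) (Fin n) K) *
      ((P : Matrix (Fin n) (Fin n) K) * Matrix.diagonal x *
        ((P⁻¹ : Matrix.GeneralLinearGroup (Fin n) K) : Matrix (Fin n) (Fin n) K)) *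
      (P : Matrix (Fin n) (Fin n) K) = Matrix.diagonal x := by
    rw [Matrix.mul_assoc, Matrix.mul_assoc, coo_inv_mul, Matrix.mul_one, ← Matrix.mul_assoc,
      coo_inv_mul, Matrix.one_mul]
  rw [h, Matrix.diagonal_apply_eq]

/-- elements of the commutant are diagonal in a frame -/
theorem frm_eq {w : ℕ} {h : Fin n → ℕ} {L : Submodule K (Matrix (Fin n) (Fin n) K)}
    {P : Matrix.GeneralLinearGroup (Fin n) K} (hP : Frm w h L P)
    {X : Matrix (Fin n) (Fin n) K} (hX : X ∈ Cmt L) :
    X = (P : Matrix (Fin n) (Fin n) K) * Matrix.diagonal (evl P X) *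
      ((P⁻¹ : Matrix.GeneralLinearGroup (Fin n) K) : Matrix (Fin n) (Fin n) K) := by
  obtain ⟨x, hx⟩ := hP.diag X hX
  have h1 : evl P X = x := by
    funext j
    rw [hx, evl_conj]
  rw [h1]
  exact hx

theorem conj_mul_conj (P : Matrix.GeneralLinearGroup (Fin n) K) (x y : Fin n → K) :
    ((P : Matrix (Fin n) (Fin n) K) * Matrix.diagonal x *
      ((P⁻¹ : Matrix.GeneralLinearGroup (Fin n) K) : Matrix (Fin n) (Fin n) K)) *
    ((P : Matrix (Fin n) (Fin n) K) * Matrix.diagonal y *
      ((P⁻¹ : Matrix.GeneralLinearGroup (Fin n) K) : Matrix (Fin n) (Fin n) K))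
    = (P : Matrix (Fin n) (Fin n) K) * Matrix.diagonal (fun j => x j * y j) *
      ((P⁻¹ : Matrix.GeneralLinearGroup (Fin n) K) : Matrix (Fin n) (Fin n) K) := by
  have h1 : ((P : Matrix (Fin n) (Fin n) K) * Matrix.diagonal x *
      ((P⁻¹ : Matrix.GeneralLinearGroup (Fin n) K) : Matrix (Fin n) (Fin n) K)) *
    ((P : Matrix (Fin n) (Fin n) K) * Matrix.diagonal y *
      ((P⁻¹ : Matrix.GeneralLinearGroup (Fin n) K) : Matrix (Fin n) (Fin n) K))
    = (P : Matrix (Fin n) (Fin n) K) * (Matrix.diagonal x *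
      (((P⁻¹ : Matrix.GeneralLinearGroup (Fin n) K) : Matrix (Fin n) (Fin n) K) *
        (P : Matrix (Fin n) (Fin n) K)) * Matrix.diagonal y) *
      ((P⁻¹ : Matrix.GeneralLinearGroup (Fin n) K) : Matrix (Fin n) (Fin n) K) := by
    simp only [Matrix.mul_assoc]
  rw [h1, coo_inv_mul, Matrix.mul_one, Matrix.diagonal_mul_diagonal]

theorem evl_mul {w : ℕ} {h : Fin n → ℕ} {L : Submodule K (Matrix (Fin n) (Fin n) K)}
    {P : Matrix.GeneralLinearGroup (Fin n) K} (hP : Frm w h L P)
    {X Y : Matrix (Fin n) (Fin n) K} (hX : X ∈ Cmt L) (hY : Y ∈ Cmt L) (j : Fin n) :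
    evl P (X * Y) j = evl P X j * evl P Y j := by
  conv_lhs => rw [frm_eq hP hX, frm_eq hP hY, conj_mul_conj]
  rw [evl_conj]

theorem frm_comm {w : ℕ} {h : Fin n → ℕ} {L : Submodule K (Matrix (Fin n) (Fin n) K)}
    {P : Matrix.GeneralLinearGroup (Fin n) K} (hP : Frm w h L P)
    {X Y : Matrix (Fin n) (Fin n) K} (hX : X ∈ Cmt L) (hY : Y ∈ Cmt L) : X * Y = Y * X := by
  rw [frm_eq hP (cmt_mul hX hY), frm_eq hP (cmt_mul hY hX)]
  have e : evl P (X * Y) = evl P (Y * X) := by
    funext j
    rw [evl_mul hP hX hY, evl_mul hP hY hX, mul_comm]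
  rw [e]

theorem evl_add (P : Matrix.GeneralLinearGroup (Fin n) K) (X Y : Matrix (Fin n) (Fin n) K)
    (j : Fin n) : evl P (X + Y) j = evl P X j + evl P Y j := by
  unfold evl
  rw [Matrix.mul_add, Matrix.add_mul, Matrix.add_apply]

theorem evl_sub (P : Matrix.GeneralLinearGroup (Fin n) K) (X Y : Matrix (Fin n) (Fin n) K)
    (j : Fin n) : evl P (X - Y) j = evl P X j - evl P Y j := by
  unfold evl
  rw [Matrix.mul_sub, Matrix.sub_mul, Matrix.sub_apply]

theorem evl_smul (P : Matrix.GeneralLinearGroup (Fin n) K) (c : K)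
    (X : Matrix (Fin n) (Fin n) K) (j : Fin n) : evl P (c • X) j = c * evl P X j := by
  unfold evl
  rw [Matrix.mul_smul, Matrix.smul_mul, Matrix.smul_apply, smul_eq_mul]

theorem evl_one (P : Matrix.GeneralLinearGroup (Fin n) K) (j : Fin n) :
    evl P (1 : Matrix (Fin n) (Fin n) K) j = 1 := by
  unfold evl
  rw [Matrix.mul_one, coo_inv_mul, Matrix.one_apply_eq]

theorem evl_zero (P : Matrix.GeneralLinearGroup (Fin n) K) (j : Fin n) :
    evl P (0 : Matrix (Fin n) (Fin n) K) j = 0 := by
  unfold evl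
  rw [Matrix.mul_zero, Matrix.zero_mul, Matrix.zero_apply]

theorem sam_refl (L : Submodule K (Matrix (Fin n) (Fin n) K))
    (P : Matrix.GeneralLinearGroup (Fin n) K) (k : Fin n) : Sam L P k P k := fun _ _ => rfl

open Classical in
theorem evl_idm (L : Submodule K (Matrix (Fin n) (Fin n) K))
    (P : Matrix.GeneralLinearGroup (Fin n) K) (k j : Fin n) :
    evl P (idm L P k) j = if Sam L P j P k then (1 : K) else 0 := by
  unfold idm
  rw [evl_conj]

theorem idm_exists {w : ℕ} {h : Fin n → ℕ} {L : Submodule K (Matrix (Fin n) (Fin n) K)}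
    {P : Matrix.GeneralLinearGroup (Fin n) K} (hP : Frm w h L P) (k : Fin n)
    (s : Finset (Fin n)) (hs : ∀ j ∈ s, ¬ Sam L P j P k) :
    ∃ E ∈ Cmt L, evl P E k = 1 ∧ ∀ j ∈ s, evl P E j = 0 := by
  classical
  induction s using Finset.induction_on with
  | empty =>
    refine ⟨1, cmt_one L, evl_one P k, fun j hj => ?_⟩
    simp at hj
  | insert a s ha ih =>
    obtain ⟨E, hE, hE1, hE0⟩ := ih (fun j hj => hs j (Finset.mem_insert_of_mem hj))
    have hna := hs a (Finset.mem_insert_self _ _)
    unfold Sam at hna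
    push Not at hna
    obtain ⟨X, hX, hne⟩ := hna
    set c : K := evl P X k - evl P X a with hc
    have hc0 : c ≠ 0 := fun h0 => hne (sub_eq_zero.1 h0).symm
    set Y : Matrix (Fin n) (Fin n) K := c⁻¹ • (X - evl P X a • (1 : Matrix (Fin n) (Fin n) K))
      with hY
    have hYm : Y ∈ Cmt L := (Cmt L).smul_mem _ ((Cmt L).sub_mem hX ((Cmt L).smul_mem _
      (cmt_one L)))
    have hYe : ∀ j, evl P Y j = c⁻¹ * (evl P X j - evl P X a) := by
      intro j
      rw [hY, evl_smul, evl_sub, evl_smul, evl_one, mul_one]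
    refine ⟨E * Y, cmt_mul hE hYm, ?_, ?_⟩
    · rw [evl_mul hP hE hYm, hE1, hYe, one_mul, ← hc, inv_mul_cancel₀ hc0]
    · intro j hj
      rw [evl_mul hP hE hYm]
      rcases Finset.mem_insert.1 hj with rfl | hj
      · rw [hYe, sub_self, mul_zero, mul_zero]
      · rw [hE0 j hj, zero_mul]

theorem idm_mem {w : ℕ} {h : Fin n → ℕ} {L : Submodule K (Matrix (Fin n) (Fin n) K)}
    {P : Matrix.GeneralLinearGroup (Fin n) K} (hP : Frm w h L P) (k : Fin n) :
    idm L P k ∈ Cmt L := by
  classical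
  obtain ⟨E, hE, hE1, hE0⟩ := idm_exists hP k (Finset.univ.filter fun j => ¬ Sam L P j P k)
    (fun j hj => (Finset.mem_filter.1 hj).2)
  have h1 : E = idm L P k := by
    have e : evl P E = fun j => if Sam L P j P k then (1 : K) else 0 := by
      funext j
      by_cases hj : Sam L P j P k
      · rw [if_pos hj, hj E hE, hE1]
      · rw [if_neg hj, hE0 j (Finset.mem_filter.2 ⟨Finset.mem_univ _, hj⟩)]
    rw [frm_eq hP hE, e]
    unfold idm
    congr 3
  rw [← h1]
  exact hE

theorem mul_idm {w : ℕ} {h : Fin n → ℕ} {L : Submodule K (Matrix (Fin n) (Fin n) K)}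
    {P : Matrix.GeneralLinearGroup (Fin n) K} (hP : Frm w h L P) (k : Fin n)
    {X : Matrix (Fin n) (Fin n) K} (hX : X ∈ Cmt L) :
    X * idm L P k = evl P X k • idm L P k := by
  have hm := idm_mem hP k
  rw [frm_eq hP (cmt_mul hX hm), frm_eq hP ((Cmt L).smul_mem (evl P X k) hm)]
  have e : evl P (X * idm L P k) = evl P (evl P X k • idm L P k) := by
    funext j
    rw [evl_mul hP hX hm, evl_smul, evl_idm]
    by_cases hj : Sam L P j P k
    · rw [if_pos hj, hj X hX]
    · rw [if_neg hj, mul_zero, mul_zero]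
  rw [e]

theorem evl_idm_self (L : Submodule K (Matrix (Fin n) (Fin n) K))
    (P : Matrix.GeneralLinearGroup (Fin n) K) (k : Fin n) : evl P (idm L P k) k = 1 := by
  rw [evl_idm, if_pos (sam_refl L P k)]

theorem idm_ne_zero (L : Submodule K (Matrix (Fin n) (Fin n) K))
    (P : Matrix.GeneralLinearGroup (Fin n) K) (k : Fin n) : idm L P k ≠ 0 := by
  intro h0
  have h1 := evl_idm_self L P k
  rw [h0, evl_zero] at h1
  exact zero_ne_one h1

theorem idm_idem {w : ℕ} {h : Fin n → ℕ} {L : Submodule K (Matrix (Fin n) (Fin n) K)}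
    {P : Matrix.GeneralLinearGroup (Fin n) K} (hP : Frm w h L P) (k : Fin n) :
    idm L P k * idm L P k = idm L P k := by
  rw [mul_idm hP k (idm_mem hP k), evl_idm_self, one_smul]

end

theorem st_IDM : ST_IDM := by
  intro K _ _ n w h L P hP k
  refine ⟨idm_mem hP k, idm_idem hP k, idm_ne_zero L P k, fun X hX => mul_idm hP k hX, ?_,
    evl_idm_self L P k, ?_⟩
  · intro j hj
    by_contra hcon
    apply hj
    rw [evl_idm, if_neg hcon]
  · intro P' hP' k'
    set e := idm L P k with he
    set e' := idm L P' k' with he'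
    have hm : e ∈ Cmt L := idm_mem hP k
    have hm' : e' ∈ Cmt L := idm_mem hP' k'
    have h1 : e' * e = evl P e' k • e := mul_idm hP k hm'
    have h2 : e * e' = evl P' e k' • e' := mul_idm hP' k' hm
    have h3 : e * e' = e' * e := frm_comm hP hm hm'
    have hi : e * e = e := idm_idem hP k
    have hi' : e' * e' = e' := idm_idem hP' k'
    constructor
    · intro hS
      have c1 : evl P e' k = 1 := by rw [hS e' hm', he', evl_idm_self]
      have c2 : evl P' e k' = 1 := by rw [← hS e hm, he, evl_idm_self]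
      rw [c1, one_smul] at h1
      rw [c2, one_smul] at h2
      rw [← h1, ← h3, h2]
    · intro hS
      by_contra hne
      apply hS
      have c1 : evl P e' k = 1 := by
        have q : evl P e' k * evl P e' k = evl P e' k := by
          rw [← evl_mul hP hm' hm', hi']
        have q0 : evl P e' k ≠ 0 := by
          intro h0
          apply hne
          rw [h3, h1, h0, zero_smul]
        exact mul_right_cancel₀ q0 (by rw [q, one_mul])
      have c2 : evl P' e k' = 1 := by
        have q : evl P' e k' * evl P' e k' = evl P' e k' := by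
          rw [← evl_mul hP' hm hm, hi]
        have q0 : evl P' e k' ≠ 0 := by
          intro h0
          apply hne
          rw [h2, h0, zero_smul]
        exact mul_right_cancel₀ q0 (by rw [q, one_mul])
      rw [c1, one_smul] at h1
      rw [c2, one_smul] at h2
      have hee : e = e' := by rw [← h1, ← h3, h2]
      intro X hX
      have x1 : X * e = evl P X k • e := mul_idm hP k hX
      have x2 : X * e' = evl P' X k' • e' := mul_idm hP' k' hX
      rw [← hee, x1] at x2
      have x3 : (evl P X k - evl P' X k') • e = 0 := by rw [sub_smul, x2, sub_self]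
      rcases smul_eq_zero.1 x3 with h0 | h0
      · exact sub_eq_zero.1 h0
      · exact absurd h0 (idm_ne_zero L P k)

end EM
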